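import Mathlib

/-!
If a prime `p` divides all values of `P`, then `f_P(N) ≤ (1 - 1/p) (N + 1) + 1`: as long as `p ∤ a(n)`, at most `p - 1`
consecutive steps can subtract only `1`, and once `p ∣ a(n)` every step subtracts at least `p`. So the assertion
`limsup f_P(N) / N = 1` fails for all these polynomials, for instance for the irreducible polynomial `x² + x + 2`.
-/

set_option autoImplicit false
open Filter Polynomial

namespace Pool.Agent.Results.MP_0950f1_nt.FixedPrimeDivisor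

/-- `a(1) = N` and `a(n) = a(n-1) - gcd(a(n-1), P(n))` for `n ≥ 2` (`a 0` is not used) -/
def a (P : ℤ[X]) (N : ℕ) : ℕ → ℤ
  | 0 => N
  | 1 => N
  | (n + 2) => a P N (n + 1) - Int.gcd (a P N (n + 1)) (P.eval ((n + 2 : ℕ) : ℤ))

/-- the least `n ≥ 1` with `a(n) = 0` -/
noncomputable def f (P : ℤ[X]) (N : ℕ) : ℕ := sInf {n | 1 ≤ n ∧ a P N n = 0}

variable (P : ℤ[X]) (N : ℕ)

theorem a_succ (n : ℕ) (hn : 1 ≤ n) :
    a P N (n + 1) = a P N n - Int.gcd (a P N n) (P.eval ((n + 1 : ℕ) : ℤ)) := by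
  obtain ⟨m, rfl⟩ : ∃ m, n = m + 1 := ⟨n - 1, by omega⟩
  rfl

theorem step (n : ℕ) (hn : 1 ≤ n) (h : 0 < a P N n) :
    0 ≤ a P N (n + 1) ∧ a P N (n + 1) ≤ a P N n - 1 := by
  rw [a_succ P N n hn]
  have h1 : 0 < Int.gcd (a P N n) (P.eval ((n + 1 : ℕ) : ℤ)) := Int.gcd_pos_of_ne_zero_left _ h.ne'
  have h2 : ((Int.gcd (a P N n) (P.eval ((n + 1 : ℕ) : ℤ)) : ℕ) : ℤ) ≤ a P N n :=
    Int.le_of_dvd h (Int.gcd_dvd_left _ _)
  constructor
  · linarith
  · have : (1 : ℤ) ≤ (Int.gcd (a P N n) (P.eval ((n + 1 : ℕ) : ℤ)) : ℕ) := by exact_mod_cast h1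
    linarith

theorem exists_zero : ∃ n, 1 ≤ n ∧ a P N n = 0 := by
  by_contra hcon
  push Not at hcon
  have h : ∀ n, 0 < a P N (n + 1) ∧ a P N (n + 1) ≤ N - n := by
    intro n
    induction n with
    | zero =>
      have h1 : a P N 1 = N := rfl
      have h2 := hcon 1 le_rfl
      rw [h1] at h2
      refine ⟨?_, by rw [zero_add, h1]; simp⟩
      rw [zero_add, h1]
      omega
    | succ n ih =>
      have h1 := step P N (n + 1) (by omega) ih.1
      have h2 := hcon (n + 1 + 1) (by omega)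
      push_cast
      refine ⟨by omega, by omega⟩
  have := h N
  omega

theorem f_spec : 1 ≤ f P N ∧ a P N (f P N) = 0 := Nat.sInf_mem (exists_zero P N)

theorem pos_of_lt {n : ℕ} (h1 : 1 ≤ n) (h2 : n < f P N) : 0 < a P N n := by
  have hne : ∀ m, 1 ≤ m → m < f P N → a P N m ≠ 0 := fun m hm1 hm2 h => Nat.notMem_of_lt_sInf hm2 ⟨hm1, h⟩
  induction n with
  | zero => omega
  | succ n ih =>
    rcases Nat.eq_zero_or_pos n with rfl | hn
    · have h3 := hne 1 le_rfl h2
      have h4 : a P N 1 = N := rfl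
      rw [zero_add]
      rw [h4] at h3 ⊢
      omega
    · have h3 := (step P N n hn (ih hn (by omega))).1
      have h4 := hne (n + 1) h1 h2
      omega

theorem one_mod {p : ℤ} (hp : 2 ≤ p) : (1 : ℤ) % p = 1 := Int.emod_eq_of_lt (by norm_num) (by omega)

/-- the potential does not decrease -/
theorem potential {p : ℕ} (hp : p.Prime) (hP : ∀ n : ℕ, 1 ≤ n → (p : ℤ) ∣ P.eval (n : ℤ)) (n : ℕ) (h1 : 1 ≤ n)
    (h2 : n ≤ f P N) : (p : ℤ) * (n - 1) + a P N n % p ≤ (p - 1) * (N - a P N n) + (p - 1) := by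
  have hp2 : (2 : ℤ) ≤ p := by exact_mod_cast hp.two_le
  have hp0 : (0 : ℤ) < p := by linarith
  induction n with
  | zero => omega
  | succ n ih =>
    rcases Nat.eq_zero_or_pos n with rfl | hn
    · have h4 : a P N 1 = N := rfl
      rw [zero_add, h4]
      have := Int.emod_lt_of_pos (N : ℤ) hp0
      push_cast
      linarith
    · have ih' := ih hn (by omega)
      have hpos := pos_of_lt P N hn (by omega)
      have hs := a_succ P N n hn
      obtain ⟨g, hg⟩ : ∃ g : ℤ, g = ((Int.gcd (a P N n) (P.eval ((n + 1 : ℕ) : ℤ)) : ℕ) : ℤ) := ⟨_, rfl⟩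
      rw [← hg] at hs
      have hg1 : 1 ≤ g := by
        rw [hg]
        exact_mod_cast Int.gcd_pos_of_ne_zero_left _ hpos.ne'
      have hr0 := Int.emod_nonneg (a P N n) hp0.ne'
      have hr1 := Int.emod_lt_of_pos (a P N (n + 1)) hp0
      have hr2 := Int.emod_nonneg (a P N (n + 1)) hp0.ne'
      have hr3 := Int.emod_lt_of_pos (a P N n) hp0
      push_cast
      have hs' : (N : ℤ) - a P N (n + 1) = (N - a P N n) + g := by rw [hs]; ring
      rw [hs']
      by_cases hd : (p : ℤ) ∣ a P N n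
      · -- the step subtracts a multiple of `p`
        have hgd : (p : ℤ) ∣ g := by
          rw [hg]
          exact_mod_cast Int.dvd_coe_gcd hd (hP (n + 1) (by omega))
        have hgp : (p : ℤ) ≤ g := Int.le_of_dvd (by linarith) hgd
        have hz : a P N (n + 1) % p = 0 := by
          rw [hs]
          exact Int.emod_eq_zero_of_dvd (dvd_sub hd hgd)
        have hz' : a P N n % p = 0 := Int.emod_eq_zero_of_dvd hd
        rw [hz]
        rw [hz'] at ih'
        nlinarith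
      · have hrn : a P N n % p ≠ 0 := fun h => hd (Int.dvd_of_emod_eq_zero h)
        rcases eq_or_lt_of_le hg1 with hg1' | hg1'
        · -- the step subtracts `1`
          have h5 : a P N (n + 1) % p = a P N n % p - 1 := by
            rw [hs, ← hg1', Int.sub_emod, one_mod hp2]
            exact Int.emod_eq_of_lt (by omega) (by omega)
          rw [h5, ← hg1']
          linarith
        · have h6 : 1 ≤ a P N n % p := by omega
          nlinarith

theorem main_bound {p : ℕ} (hp : p.Prime) (hP : ∀ n : ℕ, 1 ≤ n → (p : ℤ) ∣ P.eval (n : ℤ)) :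
    (f P N : ℝ) ≤ (1 - 1 / p) * (N + 1) + 1 := by
  have h := potential P N hp hP (f P N) (f_spec P N).1 le_rfl
  rw [(f_spec P N).2, Int.zero_emod, sub_zero, add_zero] at h
  have hp0 : (0 : ℝ) < p := by exact_mod_cast hp.pos
  have h' : (p : ℝ) * (f P N - 1) ≤ (p - 1) * N + (p - 1) := by exact_mod_cast h
  have h2 : (f P N : ℝ) - 1 ≤ ((p - 1) * N + (p - 1)) / p := by
    rw [le_div_iff₀ hp0]
    linarith
  have h3 : (((p : ℝ) - 1) * N + (p - 1)) / p = (1 - 1 / p) * (N + 1) := by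
    field_simp
  linarith

/-- If a prime `p` divides `P(n)` for all `n ≥ 1`, then `a_{P,N}` vanishes at `f_P(N) ≤ (1 - 1/p)(N + 1) + 1`. Hence
the assertion fails: there is a polynomial `P`, even an irreducible one (namely `x² + x + 2`), with `P(n) ≥ 0` for `n ≥ 1`
and `P(n) → ∞`, and a `δ > 0` (any `δ < 1/2`) with `f_P(N) ≤ (1 - δ) N` for all large `N`. -/
theorem result :
    (∀ (P : ℤ[X]) (p : ℕ), p.Prime → (∀ n : ℕ, 1 ≤ n → (p : ℤ) ∣ P.eval (n : ℤ)) →
      ∀ N : ℕ, 1 ≤ N → a P N (f P N) = 0 ∧ (f P N : ℝ) ≤ (1 - 1 / p) * (N + 1) + 1) ∧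
    ∃ P : ℤ[X], Irreducible P ∧ (∀ n : ℕ, 1 ≤ n → 0 ≤ P.eval (n : ℤ)) ∧
      Tendsto (fun n : ℕ => P.eval (n : ℤ)) atTop atTop ∧
      ∀ δ : ℝ, δ < 1 / 2 → ∀ᶠ N : ℕ in atTop, (f P N : ℝ) ≤ (1 - δ) * N := by
  refine ⟨fun P p hp hP N _ => ⟨(f_spec P N).2, main_bound P N hp hP⟩, X ^ 2 + X + 2, ?_, ?_, ?_, ?_⟩
  · have hdeg : (X ^ 2 + X + 2 : ℤ[X]).natDegree = 2 := by compute_degree!
    have hmon : (X ^ 2 + X + 2 : ℤ[X]).Monic := by monicity!
    rw [hmon.irreducible_iff_roots_eq_zero_of_degree_le_three (by omega) (by omega)]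
    rw [Multiset.eq_zero_iff_forall_notMem]
    intro x hx
    rw [mem_roots hmon.ne_zero, IsRoot.def] at hx
    simp at hx
    nlinarith [sq_nonneg (2 * x + 1)]
  · intro n _
    simp
    positivity
  · have : (fun n : ℕ => (X ^ 2 + X + 2 : ℤ[X]).eval (n : ℤ)) = fun n : ℕ => (n : ℤ) ^ 2 + n + 2 := by
      funext n
      simp
    rw [this]
    refine tendsto_atTop_mono (f := fun n : ℕ => (n : ℤ)) (fun n => ?_) tendsto_natCast_atTop_atTop
    nlinarith [sq_nonneg (n : ℤ)]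
  · intro δ hδ
    have h2 : ∀ n : ℕ, 1 ≤ n → ((2 : ℕ) : ℤ) ∣ (X ^ 2 + X + 2 : ℤ[X]).eval (n : ℤ) := by
      intro n _
      have h3 : (X ^ 2 + X + 2 : ℤ[X]).eval (n : ℤ) = n * (n + 1) + 2 := by simp; ring
      rw [h3]
      have h4 : Even ((n : ℤ) * (n + 1)) := Int.even_mul_succ_self _
      obtain ⟨k, hk⟩ := h4
      exact ⟨k + 1, by rw [hk]; push_cast; ring⟩
    have hb : ∀ N : ℕ, (f (X ^ 2 + X + 2 : ℤ[X]) N : ℝ) ≤ N / 2 + 3 / 2 := by
      intro N
      have := main_bound (X ^ 2 + X + 2 : ℤ[X]) N Nat.prime_two h2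
      push_cast at this
      linarith
    obtain ⟨M, hM⟩ := exists_nat_gt (3 / 2 / (1 / 2 - δ))
    filter_upwards [eventually_ge_atTop M] with N hN
    have h5 : 3 / 2 / (1 / 2 - δ) < N := hM.trans_le (by exact_mod_cast hN)
    rw [div_lt_iff₀ (by linarith)] at h5
    have := hb N
    nlinarith

end Pool.Agent.Results.MP_0950f1_nt.FixedPrimeDivisor
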